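import Pool.Agent.TH37.HG.Asm4

set_option autoImplicit false

/-!
# MP_364ede_al: soluble varieties whose finitely generated groups are residually finite

Remeslennikov's question: determine the soluble varieties all of whose finitely generated groups
are residually finite.
-/

namespace Pool.Agent.Results.MP_364ede_al.Determination

open scoped commutatorElement

/-- `G` lies in the variety defined by the set of laws `W` -/
def InVariety (W : Set (FreeGroup ℕ)) (G : Type) [Group G] : Prop :=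
  ∀ w ∈ W, ∀ f : ℕ → G, FreeGroup.lift f w = 1

/-- the variety defined by `W` is soluble -/
def SolubleVariety (W : Set (FreeGroup ℕ)) : Prop :=
  ∃ d : ℕ, ∀ (G : Type) [Group G], InVariety W G → derivedSeries G d = ⊥

/-- `G` is residually finite -/
def ResiduallyFinite (G : Type) [Group G] : Prop :=
  ∀ g : G, g ≠ 1 → ∃ N : Subgroup G, N.Normal ∧ N.FiniteIndex ∧ g ∉ N

/-- the laws `[b, m] = ∏ₖ wₖ [b, t^iₖ m t^-iₖ]^eₖ wₖ⁻¹` in the variables `b, m, t`, with words
`wₖ` in `b, m, t`, nonzero integers `iₖ` and integers `eₖ` -/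
def Laws : Set (FreeGroup (Fin 3)) :=
  {v | ∃ (b m t : FreeGroup (Fin 3)) (n : ℕ) (w : Fin n → FreeGroup (Fin 3)) (i e : Fin n → ℤ),
    b = FreeGroup.of 0 ∧ m = FreeGroup.of 1 ∧ t = FreeGroup.of 2 ∧ (∀ k, i k ≠ 0) ∧
    v = ⁅b, m⁆⁻¹ * (List.ofFn fun k => w k * ⁅b, t ^ i k * m * t ^ (-i k)⁆ ^ e k * (w k)⁻¹).prod}

/-- all groups of the variety satisfy the law `v` -/
def Satisfies (W : Set (FreeGroup ℕ)) (v : FreeGroup (Fin 3)) : Prop :=
  ∀ (G : Type) [Group G], InVariety W G → ∀ f : Fin 3 → G, FreeGroup.lift f v = 1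

/-- the maximal condition for normal subgroups -/
def MaxNormal (G : Type) [Group G] : Prop :=
  WellFoundedGT {N : Subgroup G // N.Normal}

/-- `G` is Hopfian -/
def Hopfian (G : Type) [Group G] : Prop :=
  ∀ φ : G →* G, Function.Surjective φ → Function.Injective φ

/-- every family of pairwise nonisomorphic finitely generated groups of the variety has fewer than
continuum many members -/
def Small (W : Set (FreeGroup ℕ)) : Prop :=
  ∀ (ι : Type) (G : ι → Type) [∀ i, Group (G i)], (∀ i, Group.FG (G i)) →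
    (∀ i, InVariety W (G i)) → (∀ i j, Nonempty (G i ≃* G j) → i = j) →
    Cardinal.mk ι < Cardinal.continuum

/-- the permutation `(x, c) ↦ (x + δ₀, c)` of the pairs `x : ℤ → ZMod p`, `c : ZMod p` -/
def hb (p : ℕ) : Equiv.Perm ((ℤ → ZMod p) × ZMod p) where
  toFun x := (x.1 + Pi.single 0 1, x.2)
  invFun x := (x.1 - Pi.single 0 1, x.2)
  left_inv x := by simp
  right_inv x := by simp

/-- the permutation `(x, c) ↦ (x, c + x 0)` -/
def hm (p : ℕ) : Equiv.Perm ((ℤ → ZMod p) × ZMod p) where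
  toFun x := (x.1, x.2 + x.1 0)
  invFun x := (x.1, x.2 - x.1 0)
  left_inv x := by simp
  right_inv x := by simp

/-- the permutation `(x, c) ↦ (x(· - 1), c)` -/
def ht (p : ℕ) : Equiv.Perm ((ℤ → ZMod p) × ZMod p) where
  toFun x := (fun i => x.1 (i - 1), x.2)
  invFun x := (fun i => x.1 (i + 1), x.2)
  left_inv x := by simp
  right_inv x := by simp

/-- the group `H_p`: a central amalgamated power of Heisenberg groups modulo `p`, extended by the
shift -/
def HGroup (p : ℕ) : Subgroup (Equiv.Perm ((ℤ → ZMod p) × ZMod p)) :=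
  Subgroup.closure {hb p, hm p, ht p}

/-- the permutation `(0, 0, z) ↦ (0, 0, z + 1)` of the triples in `ℤ × ZMod q × ZMod p`; the other
points are fixed -/
def wb (p q : ℕ) : Equiv.Perm (ℤ × ZMod q × ZMod p) where
  toFun x := if x.1 = 0 ∧ x.2.1 = 0 then (x.1, x.2.1, x.2.2 + 1) else x
  invFun x := if x.1 = 0 ∧ x.2.1 = 0 then (x.1, x.2.1, x.2.2 - 1) else x
  left_inv x := by
    by_cases h : x.1 = 0 ∧ x.2.1 = 0
    · simp [h]
      ext <;> simp [h]
    · simp [h]
  right_inv x := by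
    by_cases h : x.1 = 0 ∧ x.2.1 = 0
    · simp [h]
      ext <;> simp [h]
    · simp [h]
/-- the permutation `(0, s, z) ↦ (0, s + 1, z)`; the other points are fixed -/
def wm (p q : ℕ) : Equiv.Perm (ℤ × ZMod q × ZMod p) where
  toFun x := if x.1 = 0 then (x.1, x.2.1 + 1, x.2.2) else x
  invFun x := if x.1 = 0 then (x.1, x.2.1 - 1, x.2.2) else x
  left_inv x := by
    by_cases h : x.1 = 0
    · simp [h]
      ext <;> simp [h]
    · simp [h]
  right_inv x := by
    by_cases h : x.1 = 0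
    · simp [h]
      ext <;> simp [h]
    · simp [h]

/-- the permutation `(i, s, z) ↦ (i + 1, s, z)` -/
def wt (p q : ℕ) : Equiv.Perm (ℤ × ZMod q × ZMod p) where
  toFun x := (x.1 + 1, x.2)
  invFun x := (x.1 - 1, x.2)
  left_inv x := by simp
  right_inv x := by simp

/-- the group `W_{p,q}`, the iterated wreath product `(C_p wr C_q) wr C_∞` -/
def WGroup (p q : ℕ) : Subgroup (Equiv.Perm (ℤ × ZMod q × ZMod p)) :=
  Subgroup.closure {wb p q, wm p q, wt p q}

theorem law_iff (G : Type) [Group G] (u : H53R2.UI) : u.Grp G ↔ ∀ f : Fin 3 → G,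
    FreeGroup.lift f (⁅(FreeGroup.of 0 : FreeGroup (Fin 3)), FreeGroup.of 1⁆⁻¹ *
      (List.ofFn fun k => u.w k * ⁅(FreeGroup.of 0 : FreeGroup (Fin 3)),
        FreeGroup.of 2 ^ u.i k * FreeGroup.of 1 * FreeGroup.of 2 ^ (-u.i k)⁆ ^ u.e k *
          (u.w k)⁻¹).prod) = 1 := by
  have key : ∀ f : Fin 3 → G,
      FreeGroup.lift f (⁅(FreeGroup.of 0 : FreeGroup (Fin 3)), FreeGroup.of 1⁆⁻¹ *
      (List.ofFn fun k => u.w k * ⁅(FreeGroup.of 0 : FreeGroup (Fin 3)),
        FreeGroup.of 2 ^ u.i k * FreeGroup.of 1 * FreeGroup.of 2 ^ (-u.i k)⁆ ^ u.e k *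
          (u.w k)⁻¹).prod) = ⁅f 0, f 1⁆⁻¹ * (List.ofFn fun k : Fin u.n =>
        FreeGroup.lift f (u.w k) * ⁅f 0, f 2 ^ (u.i k) * f 1 * f 2 ^ (-(u.i k))⁆ ^ (u.e k) *
      (FreeGroup.lift f (u.w k))⁻¹).prod := by
    intro f
    rw [map_mul, map_inv, map_commutatorElement, map_list_prod, List.map_ofFn]
    simp only [FreeGroup.lift_apply_of]
    congr 3
    funext k
    simp only [Function.comp_apply, map_mul, map_inv, map_zpow, map_commutatorElement,
      FreeGroup.lift_apply_of]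
  constructor
  · intro h f
    rw [key, inv_mul_eq_one]
    have h1 := h (f 0) (f 1) (f 2)
    have h2 : ![f 0, f 1, f 2] = f := by
      funext j; fin_cases j <;> rfl
    rw [h2] at h1
    exact h1
  · intro h b m t
    have h1 := h ![b, m, t]
    rw [key, inv_mul_eq_one] at h1
    exact h1

theorem exists_law_iff (W : Set (FreeGroup ℕ)) :
    (∃ v ∈ Laws, Satisfies W v) ↔
      ∃ u : H53R2.UI, ∀ (G : Type) [Group G], H53R2.InVar W G → u.Grp G := by
  constructor
  · rintro ⟨v, ⟨b, m, t, n, w, i, e, rfl, rfl, rfl, hi, rfl⟩, hv⟩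
    exact ⟨⟨n, w, i, e, hi⟩, fun G _ hG => (law_iff G ⟨n, w, i, e, hi⟩).2 (hv G hG)⟩
  · rintro ⟨u, hu⟩
    exact ⟨_, ⟨_, _, _, u.n, u.w, u.i, u.e, rfl, rfl, rfl, u.hi, rfl⟩,
      fun G _ hG => (law_iff G u).1 (hu G hG)⟩

/-- **Soluble varieties with residually finite finitely generated groups.** -/
theorem result (W : Set (FreeGroup ℕ)) (hW : SolubleVariety W) : List.TFAE [
    ∀ (G : Type) [Group G], Group.FG G → InVariety W G → ResiduallyFinite G,
    ∃ v ∈ Laws, Satisfies W v,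
    ∀ (G : Type) [Group G], InVariety W G → ∀ b m t : G,
      (∀ i : ℤ, i ≠ 0 → ⁅b, t ^ i * m * t ^ (-i)⁆ = 1) → ⁅b, m⁆ = 1,
    (∀ p : ℕ, p.Prime → ¬ InVariety W (HGroup p)) ∧
      ∀ p q : ℕ, p.Prime → q.Prime → p ≠ q → ¬ InVariety W (WGroup p q),
    ∀ (G : Type) [Group G], Group.FG G → InVariety W G → MaxNormal G,
    ∀ (G : Type) [Group G], Group.FG G → InVariety W G → Hopfian G,
    Small W] := by
  obtain ⟨d, hd⟩ := hW
  have h := TH37.HG.main_tfae2 W d hd
  have e := exists_law_iff W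
  tfae_have 1 ↔ 2 := (h.out 0 1).trans e.symm
  tfae_have 2 ↔ 3 := e.trans (h.out 1 2)
  tfae_have 2 ↔ 4 := e.trans (h.out 1 3)
  tfae_have 2 ↔ 5 := e.trans (h.out 1 4)
  tfae_have 2 ↔ 6 := e.trans (h.out 1 5)
  tfae_have 2 ↔ 7 := e.trans (h.out 1 6)
  tfae_finish

end Pool.Agent.Results.MP_364ede_al.Determination
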